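import Mathlib

/-!
# An infinite-order hyperbolicity preserver of infinite rank which is not monotone

The operator `T = (x - D) ∘ cos D` on `ℝ[x]` preserves hyperbolicity, has infinite order and
infinite-dimensional range, and `T = ∑ Q_k D^k` with `deg Q_k = 1` and `deg Q_{k+1} = 0` for every
even `k`.
-/

set_option autoImplicit false

open Polynomial Finset

namespace Pool.Agent.Results.MP_6bb0fd_an.NonMonotone

/-- A real polynomial is hyperbolic if it is zero or all its complex zeros are real. -/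
def Hyperbolic (p : ℝ[X]) : Prop := p = 0 ∨ ∀ z : ℂ, aeval z p = 0 → z.im = 0

/-- `T` is represented by the formal series `∑ Q_k(x) D^k`, where `D` is differentiation. -/
def IsSeries (T : ℝ[X] →ₗ[ℝ] ℝ[X]) (Q : ℕ → ℝ[X]) : Prop :=
  ∀ p : ℝ[X], T p = ∑ k ∈ range (p.natDegree + 1), Q k * derivative^[k] p

/-- `∑ Q_k D^k` is monotone if `deg Q_k ≤ deg Q_{k+1}` whenever `Q_k ≠ 0` (and `deg 0 = ⊥`). -/
def IsMonotone (Q : ℕ → ℝ[X]) : Prop := ∀ k : ℕ, Q k ≠ 0 → (Q k).degree ≤ (Q (k + 1)).degree

lemma sum_stable (Q : ℕ → ℝ[X]) (p : ℝ[X]) {N : ℕ} (hN : p.natDegree ≤ N) :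
    ∑ k ∈ range (p.natDegree + 1), Q k * derivative^[k] p =
      ∑ k ∈ range (N + 1), Q k * derivative^[k] p := by
  apply sum_subset
  · intro k hk
    simp only [mem_range] at hk ⊢
    omega
  · intro k _ hk
    simp only [mem_range, not_lt] at hk
    rw [iterate_derivative_eq_zero (by omega), mul_zero]

/-- the operator `∑ Q_k D^k` -/
noncomputable def opSum (Q : ℕ → ℝ[X]) : ℝ[X] →ₗ[ℝ] ℝ[X] where
  toFun p := ∑ k ∈ range (p.natDegree + 1), Q k * derivative^[k] p
  map_add' p q := by
    rw [sum_stable Q p (le_max_left p.natDegree q.natDegree),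
      sum_stable Q q (le_max_right p.natDegree q.natDegree),
      sum_stable Q (p + q) (natDegree_add_le p q), ← sum_add_distrib]
    refine sum_congr rfl fun k _ => ?_
    rw [iterate_map_add, mul_add]
  map_smul' a p := by
    rw [RingHom.id_apply, sum_stable Q (a • p) (natDegree_smul_le a p), smul_sum]
    refine sum_congr rfl fun k _ => ?_
    rw [iterate_derivative_smul, mul_smul_comm]

/-- `Re (i ^ k) / k!`, the Taylor coefficients of the cosine -/
noncomputable def c (k : ℕ) : ℝ := (Complex.I ^ k).re / (k.factorial : ℝ)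

/-- `cos D` -/
noncomputable def cosD : ℝ[X] →ₗ[ℝ] ℝ[X] := opSum fun k => C (c k)

/-- `(x - D) ∘ cos D` -/
noncomputable def T : ℝ[X] →ₗ[ℝ] ℝ[X] :=
  (LinearMap.mulLeft ℝ (X : ℝ[X]) - derivative) ∘ₗ cosD

/-- the coefficients of `T` -/
noncomputable def Q (k : ℕ) : ℝ[X] := C (c k) * X - (if k = 0 then 0 else C (c (k - 1)))

lemma isSeries : IsSeries T Q := by
  intro p
  have h1 : T p = X * cosD p - derivative (cosD p) := rfl
  have h2 : cosD p = ∑ k ∈ range (p.natDegree + 1), C (c k) * derivative^[k] p := rfl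
  have h3 : cosD p = ∑ k ∈ range (p.natDegree + 1 + 1), C (c k) * derivative^[k] p := by
    rw [h2]
    exact sum_stable (fun k => C (c k)) p (Nat.le_succ _)
  have h4 : derivative (cosD p) =
      ∑ k ∈ range (p.natDegree + 1 + 1), (if k = 0 then 0 else C (c (k - 1))) *
        derivative^[k] p := by
    rw [sum_range_succ', h2, map_sum]
    simp only [if_true, zero_mul, add_zero, Nat.succ_ne_zero, if_false, Nat.add_sub_cancel]
    refine sum_congr rfl fun k _ => ?_
    rw [derivative_C_mul, Function.iterate_succ_apply']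
  rw [sum_stable Q p (Nat.le_succ _), h1, h4, h3, mul_sum, ← sum_sub_distrib]
  refine sum_congr rfl fun k _ => ?_
  unfold Q
  ring

/-- Taylor expansion of the complexified polynomial -/
lemma taylor_expand (p : ℝ[X]) (z w : ℂ) :
    aeval (z + w) p = ∑ k ∈ range (p.natDegree + 1),
      aeval z (derivative^[k] p) * (w ^ k / (k.factorial : ℂ)) := by
  set P : ℂ[X] := p.map (algebraMap ℝ ℂ) with hP
  have h1 : aeval (z + w) p = (taylor z P).eval w := by
    rw [taylor_eval, hP, eval_map_algebraMap, add_comm]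
  have hdeg : (taylor z P).natDegree < p.natDegree + 1 := by
    rw [natDegree_taylor, hP, natDegree_map]
    omega
  rw [h1, eval_eq_sum_range' hdeg]
  refine sum_congr rfl fun k _ => ?_
  rw [taylor_coeff]
  have h2 : aeval z (derivative^[k] p) = (k.factorial : ℂ) * (hasseDeriv k P).eval z := by
    rw [← eval_map_algebraMap, ← iterate_derivative_map, ← hP, ← factorial_smul_hasseDeriv]
    simp [nsmul_eq_mul]
  rw [h2]
  have : (k.factorial : ℂ) ≠ 0 := by exact_mod_cast Nat.factorial_ne_zero k
  field_simp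

/-- `(cos D) p (z) = (p (z + i) + p (z - i)) / 2` -/
lemma cosD_eval (p : ℝ[X]) (z : ℂ) :
    2 * aeval z (cosD p) = aeval (z + Complex.I) p + aeval (z + -Complex.I) p := by
  rw [taylor_expand, taylor_expand, ← sum_add_distrib]
  have h2 : cosD p = ∑ k ∈ range (p.natDegree + 1), C (c k) * derivative^[k] p := rfl
  rw [h2, map_sum, mul_sum]
  refine sum_congr rfl fun k _ => ?_
  rw [map_mul, aeval_C]
  have h3 : (algebraMap ℝ ℂ) (c k) * 2 =
      Complex.I ^ k / (k.factorial : ℂ) + (-Complex.I) ^ k / (k.factorial : ℂ) := by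
    have h4 : (-Complex.I) ^ k = (starRingEnd ℂ) (Complex.I ^ k) := by
      rw [map_pow, Complex.conj_I]
    rw [h4, ← add_div, Complex.add_conj]
    unfold c
    simp only [Complex.coe_algebraMap]
    push_cast
    ring
  linear_combination (aeval z (derivative^[k] p)) * h3

lemma real_root {p : ℝ[X]} (hp0 : p ≠ 0) (hp : ∀ z : ℂ, aeval z p = 0 → z.im = 0) {r : ℂ}
    (hr : r ∈ (p.map (algebraMap ℝ ℂ)).roots) : r.im = 0 := by
  apply hp
  have := (mem_roots ((Polynomial.map_ne_zero hp0))).1 hr
  rw [IsRoot.def, eval_map_algebraMap] at this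
  exact this

/-- norm comparison for real-rooted polynomials -/
lemma norm_prod_le (s : Multiset ℂ) (hs : ∀ r ∈ s, r.im = 0) {z w : ℂ} (hre : z.re = w.re)
    (him : w.im ^ 2 < z.im ^ 2) :
    ‖(s.map fun r => w - r).prod‖ ≤ ‖(s.map fun r => z - r).prod‖ ∧
      (s ≠ 0 → ‖(s.map fun r => w - r).prod‖ < ‖(s.map fun r => z - r).prod‖) := by
  induction s using Multiset.induction_on with
  | empty => simp
  | cons a s ih =>
    obtain ⟨h1, h2⟩ := ih fun r hr => hs r (Multiset.mem_cons_of_mem hr)
    have ha : a.im = 0 := hs a (Multiset.mem_cons_self a s)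
    have h3 : ‖w - a‖ < ‖z - a‖ := by
      apply lt_of_pow_lt_pow_left₀ 2 (norm_nonneg _)
      rw [Complex.sq_norm, Complex.sq_norm, Complex.normSq_apply, Complex.normSq_apply,
        Complex.sub_re, Complex.sub_re, Complex.sub_im, Complex.sub_im, ha, hre]
      nlinarith
    have hz : 0 < ‖(s.map fun r => z - r).prod‖ := by
      rw [norm_pos_iff]
      intro h0
      rw [Multiset.prod_eq_zero_iff, Multiset.mem_map] at h0
      obtain ⟨r, hr, hzr⟩ := h0
      have hr0 : r.im = 0 := hs r (Multiset.mem_cons_of_mem hr)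
      have : z.im = 0 := by
        rw [sub_eq_zero.1 hzr]; exact hr0
      rw [this] at him
      nlinarith [sq_nonneg w.im]
    have h4 : ‖((a ::ₘ s).map fun r => w - r).prod‖ < ‖((a ::ₘ s).map fun r => z - r).prod‖ := by
      rw [Multiset.map_cons, Multiset.prod_cons, Multiset.map_cons, Multiset.prod_cons, norm_mul,
        norm_mul]
      calc ‖w - a‖ * ‖(s.map fun r => w - r).prod‖ ≤ ‖w - a‖ * ‖(s.map fun r => z - r).prod‖ :=
            mul_le_mul_of_nonneg_left h1 (norm_nonneg _)
        _ < ‖z - a‖ * ‖(s.map fun r => z - r).prod‖ := mul_lt_mul_of_pos_right h3 hz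
    exact ⟨h4.le, fun _ => h4⟩

lemma eval_prod (p : ℝ[X]) (z : ℂ) :
    aeval z p = (p.leadingCoeff : ℂ) *
      ((p.map (algebraMap ℝ ℂ)).roots.map fun r => z - r).prod := by
  rw [← eval_map_algebraMap, (IsAlgClosed.splits (p.map (algebraMap ℝ ℂ))).eval_eq_prod_roots,
    leadingCoeff_map]
  rfl

/-- `cos D` maps hyperbolic polynomials to polynomials without non-real zeros. -/
lemma cosD_ne_zero {p : ℝ[X]} (hp0 : p ≠ 0) (hp : ∀ z : ℂ, aeval z p = 0 → z.im = 0) {z : ℂ}
    (hz : z.im ≠ 0) : aeval z (cosD p) ≠ 0 := by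
  intro h0
  have h1 := cosD_eval p z
  rw [h0, mul_zero] at h1
  have h2 : ‖aeval (z + Complex.I) p‖ = ‖aeval (z + -Complex.I) p‖ := by
    rw [eq_neg_of_add_eq_zero_left h1.symm, norm_neg]
  have hlc : (p.leadingCoeff : ℂ) ≠ 0 := by
    exact_mod_cast leadingCoeff_ne_zero.2 hp0
  have hlcn : 0 < ‖(p.leadingCoeff : ℂ)‖ := norm_pos_iff.2 hlc
  have hroots : ∀ r ∈ (p.map (algebraMap ℝ ℂ)).roots, r.im = 0 := fun r hr => real_root hp0 hp hr
  by_cases hs : (p.map (algebraMap ℝ ℂ)).roots = 0
  · rw [eval_prod, eval_prod, hs] at h1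
    simp only [Multiset.map_zero, Multiset.prod_zero, mul_one] at h1
    have : (2 : ℂ) * p.leadingCoeff = 0 := by rw [two_mul]; exact h1.symm
    exact hlc ((mul_eq_zero.1 this).resolve_left two_ne_zero)
  · rw [eval_prod, eval_prod, norm_mul, norm_mul] at h2
    have h3 := mul_left_cancel₀ hlcn.ne' h2
    rcases lt_or_gt_of_ne hz with hneg | hpos
    · have := (norm_prod_le _ hroots (z := z + -Complex.I) (w := z + Complex.I) (by simp)
        (by simp; nlinarith)).2 hs
      linarith
    · have := (norm_prod_le _ hroots (z := z + Complex.I) (w := z + -Complex.I) (by simp)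
        (by simp; nlinarith)).2 hs
      linarith

/-- `x - D` maps polynomials without non-real zeros to such polynomials. -/
lemma sub_derivative_ne_zero {q : ℝ[X]} (hq : ∀ z : ℂ, z.im ≠ 0 → aeval z q ≠ 0) {z : ℂ}
    (hz : z.im ≠ 0) : aeval z (X * q - derivative q) ≠ 0 := by
  intro h0
  set P : ℂ[X] := q.map (algebraMap ℝ ℂ) with hP
  have h1 : P.eval z ≠ 0 := by
    rw [hP, eval_map_algebraMap]
    exact hq z hz
  have h2 : P.derivative.eval z = z * P.eval z := by
    rw [map_sub, map_mul, aeval_X, sub_eq_zero] at h0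
    rw [hP, derivative_map, eval_map_algebraMap, eval_map_algebraMap, h0]
  have h3 := (IsAlgClosed.splits P).eval_derivative_div_eval_of_ne_zero h1
  rw [h2, mul_div_assoc, div_self h1, mul_one] at h3
  have hP0 : P ≠ 0 := by
    rintro h
    rw [h] at h1
    simp at h1
  have hroots : ∀ r ∈ P.roots, r.im = 0 := by
    intro r hr
    by_contra hr0
    apply hq r hr0
    have := (mem_roots hP0).1 hr
    rw [IsRoot.def, hP, eval_map_algebraMap] at this
    exact this
  have h4 : ∀ s : Multiset ℂ, (∀ r ∈ s, r.im = 0) →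
      ∃ t : ℝ, 0 ≤ t ∧ ((s.map fun r => 1 / (z - r)).sum).im = - z.im * t := by
    intro s
    induction s using Multiset.induction_on with
    | empty => intro _; exact ⟨0, le_refl 0, by simp⟩
    | cons a s ih =>
      intro hs
      obtain ⟨t, ht, h5⟩ := ih fun r hr => hs r (Multiset.mem_cons_of_mem hr)
      refine ⟨t + 1 / Complex.normSq (z - a), add_nonneg ht
        (div_nonneg zero_le_one (Complex.normSq_nonneg _)), ?_⟩
      have ha : a.im = 0 := hs a (Multiset.mem_cons_self a s)
      rw [Multiset.map_cons, Multiset.sum_cons, Complex.add_im, h5, one_div, Complex.inv_im,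
        Complex.sub_im, ha]
      ring
  obtain ⟨t, ht, h5⟩ := h4 P.roots hroots
  have h6 := congrArg Complex.im h3
  rw [h5] at h6
  have h7 : z.im * (1 + t) = 0 := by linarith
  rcases mul_eq_zero.1 h7 with h8 | h8
  · exact hz h8
  · linarith

lemma preserves (p : ℝ[X]) (hp : Hyperbolic p) : Hyperbolic (T p) := by
  rcases hp with rfl | hp
  · left
    simp
  · by_cases hp0 : p = 0
    · left
      simp [hp0]
    · right
      intro z h0
      by_contra hz
      exact sub_derivative_ne_zero (fun w hw => cosD_ne_zero hp0 hp hw) hz h0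

lemma c_even (j : ℕ) : c (2 * j) ≠ 0 := by
  unfold c
  rw [pow_mul, Complex.I_sq]
  refine div_ne_zero ?_ (by exact_mod_cast Nat.factorial_ne_zero _)
  rcases Nat.even_or_odd j with h | h
  · rw [h.neg_one_pow]; simp
  · rw [h.neg_one_pow]; simp

lemma c_odd (j : ℕ) : c (2 * j + 1) = 0 := by
  unfold c
  rw [pow_succ, pow_mul, Complex.I_sq]
  rcases Nat.even_or_odd j with h | h
  · rw [h.neg_one_pow]; simp
  · rw [h.neg_one_pow]; simp

lemma degree_Q_even (j : ℕ) : (Q (2 * j)).degree = 1 := by
  unfold Q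
  have h1 : (if 2 * j = 0 then (0 : ℝ[X]) else C (c (2 * j - 1))) = 0 := by
    split_ifs with h
    · rfl
    · obtain ⟨i, hi⟩ : ∃ i, 2 * j - 1 = 2 * i + 1 := ⟨j - 1, by omega⟩
      rw [hi, c_odd, C_0]
  rw [h1, sub_zero, degree_C_mul_X (c_even j)]

lemma degree_Q_odd (j : ℕ) : (Q (2 * j + 1)).degree = 0 := by
  unfold Q
  rw [c_odd, C_0, zero_mul, zero_sub, degree_neg, if_neg (by omega), Nat.add_sub_cancel,
    degree_C (c_even j)]

/-- `T` is injective. -/
lemma T_injective : Function.Injective T := by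
  rw [← LinearMap.ker_eq_bot, LinearMap.ker_eq_bot']
  intro p hp
  by_contra hp0
  have h1 : cosD p ≠ 0 := by
    intro h0
    have hc : (cosD p).coeff p.natDegree = p.leadingCoeff := by
      have h2 : cosD p = ∑ k ∈ range (p.natDegree + 1), C (c k) * derivative^[k] p := rfl
      rw [h2, finsetSum_coeff, sum_range_succ']
      rw [sum_eq_zero, zero_add]
      · simp [c]
      · intro k hk
        rw [coeff_C_mul, coeff_iterate_derivative, coeff_eq_zero_of_natDegree_lt (by omega)]
        simp
    rw [h0, coeff_zero] at hc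
    exact hp0 (leadingCoeff_eq_zero.1 hc.symm)
  have h2 : X * cosD p - derivative (cosD p) = 0 := hp
  have h3 := sub_eq_zero.1 h2
  have h4 : (X * cosD p).degree = (cosD p).degree + 1 := by
    rw [degree_mul, degree_X, add_comm]
  have h5 : (derivative (cosD p)).degree < (cosD p).degree := degree_derivative_lt h1
  rw [← h3, h4] at h5
  have h6 : (cosD p).degree ≤ (cosD p).degree + 1 := by
    rw [← h4]
    rw [degree_mul, degree_X]
    have : (cosD p).degree = 0 + (cosD p).degree := by rw [zero_add]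
    conv_lhs => rw [this]
    gcongr
    exact zero_le_one
  exact absurd h5 (not_lt.2 h6)

/-- Main result. The operator `T = (x - D) ∘ cos D` is a hyperbolicity preserver of infinite order
whose range is infinite-dimensional (in particular of dimension at least three), it is
represented by `∑ Q_k D^k`, and it is not monotone: for every even `k`, the polynomials `Q_k` and
`Q_{k+1}` are non-zero, of degrees `1` and `0`. -/
theorem result : ∃ (T : ℝ[X] →ₗ[ℝ] ℝ[X]) (Q : ℕ → ℝ[X]), IsSeries T Q ∧
    {k | Q k ≠ 0}.Infinite ∧ (∀ p, Hyperbolic p → Hyperbolic (T p)) ∧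
    ¬ FiniteDimensional ℝ (LinearMap.range T) ∧ 3 ≤ Module.rank ℝ (LinearMap.range T) ∧
    ¬ IsMonotone Q ∧ ∀ j : ℕ, (Q (2 * j)).degree = 1 ∧ (Q (2 * j + 1)).degree = 0 := by
  have hinf : ¬ FiniteDimensional ℝ (LinearMap.range T) := by
    intro hfin
    have : FiniteDimensional ℝ ℝ[X] :=
      Module.Finite.equiv (LinearEquiv.ofInjective T T_injective).symm
    exact Polynomial.not_finite this
  have hne : ∀ j : ℕ, Q (2 * j) ≠ 0 := by
    intro j h0
    have := degree_Q_even j
    rw [h0, degree_zero] at this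
    exact absurd this (by decide)
  refine ⟨T, Q, isSeries, ?_, preserves, hinf, ?_, ?_,
    fun j => ⟨degree_Q_even j, degree_Q_odd j⟩⟩
  · apply Set.infinite_of_injective_forall_mem (f := fun j : ℕ => 2 * j)
    · intro a b h
      simpa using h
    · intro j
      exact hne j
  · have h1 : Cardinal.aleph0 ≤ Module.rank ℝ (LinearMap.range T) := by
      by_contra hlt
      exact hinf (Module.rank_lt_aleph0_iff.1 (not_le.1 hlt))
    exact le_trans (by exact_mod_cast (Cardinal.natCast_lt_aleph0 (n := 3)).le) h1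
  · intro hmono
    have h1 := hmono (2 * 0) (hne 0)
    rw [degree_Q_even 0, degree_Q_odd 0] at h1
    exact absurd h1 (by decide)

end Pool.Agent.Results.MP_6bb0fd_an.NonMonotone
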